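import Pool.Agent.L7h82.RL.Stm

/-!
# Project RL, part CLS: the characters of the Galois group of a class field of arbitrary conductor
-/

set_option autoImplicit false
set_option linter.unusedSectionVars false

namespace Pool.Agent.L7h15.RL

open NumberField IsDedekindDomain
open Pool.Agent.K4H55.CX (ord prod_grp facF efx luc luc_eq exists_ab cpow_two cpow_f)
open Pool.Agent.K4H55.BI (gen gen_span gen_dvd gen_prime gen_na gen_inj)
open Pool.Agent.L7h15.BK (gen_mem exists_above exists_frob norm_above card_above card_dual'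
  card_values' frob_pow)
open Pool.Agent.L7h82.RL

section mc

variable {K : Type} [Field K] [NumberField K] [hP : IsPrincipalIdealRing (𝓞 K)]
  {𝒢 : Type} [CommGroup 𝒢] [Finite 𝒢] {χ : 𝒢 → 𝓞 K → ℂ}

/-- a group of characters -/
structure Mc (χ : 𝒢 → 𝓞 K → ℂ) : Prop where
  mul : ∀ g h x, χ g x ≠ 0 → χ h x ≠ 0 → χ (g * h) x = χ g x * χ h x
  triv : ∀ x, χ 1 x = 1

/-- the characters prime to `x` -/
def Mc.sub (h : Mc χ) (x : 𝓞 K) : Subgroup 𝒢 where
  carrier := {g | χ g x ≠ 0}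
  mul_mem' := fun {g g'} hg hg' => by
    show χ (g * g') x ≠ 0
    rw [h.mul g g' x hg hg']
    exact mul_ne_zero hg hg'
  one_mem' := by
    show χ 1 x ≠ 0
    rw [h.triv]
    exact one_ne_zero
  inv_mem' := fun {g} hg => by
    show χ g⁻¹ x ≠ 0
    have h1 : ∀ j : ℕ, χ (g ^ j) x ≠ 0 := by
      intro j
      induction j with
      | zero => rw [pow_zero, h.triv]; exact one_ne_zero
      | succ j ih =>
        rw [pow_succ, h.mul _ _ x ih hg]
        exact mul_ne_zero ih hg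
    have h2 : g⁻¹ = g ^ (orderOf g - 1) := by
      have h3 : 0 < orderOf g := orderOf_pos g
      rw [inv_eq_iff_mul_eq_one, ← pow_succ', Nat.sub_add_cancel h3, pow_orderOf_eq_one]
    rw [h2]
    exact h1 _

/-- evaluation at `x` -/
def Mc.ev (h : Mc χ) (x : 𝓞 K) : h.sub x →* ℂ where
  toFun := fun g => χ g x
  map_one' := h.triv x
  map_mul' := fun g g' => h.mul g g' x g.2 g'.2

lemma Mc.card_ev (h : Mc χ) (x : 𝓞 K) : Nat.card (Set.range (h.ev x)) = ord χ x := by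
  unfold ord
  refine Nat.card_congr (Equiv.setCongr ?_)
  ext z
  constructor
  · rintro ⟨g, rfl⟩
    exact ⟨g.2, g, rfl⟩
  · rintro ⟨hz, g, rfl⟩
    exact ⟨⟨g, hz⟩, rfl⟩

theorem Mc.prod (h : Mc χ) (x : 𝓞 K) [Fintype 𝒢] :
    ∃ r : ℕ, r * ord χ x = Nat.card {g // χ g x ≠ 0} ∧ 0 < ord χ x ∧
      ∀ (m : ℕ) (a : Fin m → ℂ) (F : ℂ → ℂ), F 0 = 1 → (∀ z, F z = (∏ i, (1 - a i * z))⁻¹) →
        ∏ g, F (χ g x) = ((∏ i, (1 - a i ^ ord χ x))⁻¹) ^ r := by
  classical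
  have hfin : Fintype (h.sub x) := Fintype.ofFinite _
  obtain ⟨r, h1, h2, h3⟩ := prod_grp (h.ev x)
  rw [h.card_ev] at h1 h2 h3
  refine ⟨r, h1, h2, fun m a F hF0 hF => ?_⟩
  have h4 : ∏ g, F (χ g x) = ∏ g : h.sub x, F (χ g x) := by
    have h5 : ∏ g ∈ Finset.univ.filter (fun g : 𝒢 => g ∈ h.sub x), F (χ g x) =
        ∏ g : h.sub x, F (χ g x) := Finset.prod_subtype _ (fun g => by simp) _
    rw [← h5]
    symm
    refine Finset.prod_subset (Finset.filter_subset _ _) fun g _ hg => ?_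
    have h6 : χ g x = 0 := by
      by_contra h7
      exact hg (Finset.mem_filter.2 ⟨Finset.mem_univ _, h7⟩)
    rw [h6, hF0]
  have h5 : ∏ g : h.sub x, F (χ g x) = ∏ g : h.sub x, (∏ i, (1 - a i * χ g x))⁻¹ :=
    Finset.prod_congr rfl fun g _ => hF _
  rw [h4, h5, Finset.prod_inv_distrib, inv_pow, Finset.prod_comm, ← Finset.prod_pow]
  congr 1
  exact Finset.prod_congr rfl fun i _ => h3 (a i)

/-- the product of the Euler factors -/
theorem Mc.local (h : Mc χ) (v : HeightOneSpectrum (𝓞 K)) [Fintype 𝒢] (n : 𝓞 K)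
    (c : Ideal (𝓞 K) → ℂ) (s : ℂ) {m : ℕ}
    (hm : m * ord χ (gen v) = Nat.card {g // χ g (gen v) ≠ 0}) :
    ∏ g, efx n c (χ g) s v = facF n c v (Ideal.absNorm v.asIdeal ^ ord χ (gen v)) s ^ m := by
  classical
  obtain ⟨r, h1, h2, h3⟩ := h.prod (gen v)
  have hrm : r = m := Nat.eq_of_mul_eq_mul_right h2 (h1.trans hm.symm)
  subst hrm
  set f := ord χ (gen v) with hf
  set q := Ideal.absNorm v.asIdeal with hq
  have hq1 : 1 < q := by
    have h5 : q ≠ 0 := by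
      rw [hq, Ne, Ideal.absNorm_eq_zero_iff]
      exact v.ne_bot
    have h6 : q ≠ 1 := by
      rw [hq, Ne, Ideal.absNorm_eq_one_iff]
      exact v.isPrime.ne_top
    omega
  have hqf : q ^ f ≠ 0 := pow_ne_zero f (by omega)
  have hlog : Nat.log q (q ^ f) = f := Nat.log_pow hq1 f
  unfold facF
  rw [← hq, hlog]
  by_cases hn : n ∈ v.asIdeal
  · rw [if_pos hn, cpow_f, ← mul_pow]
    have h4 := h3 1 (fun _ => c v.asIdeal * (q : ℂ) ^ (-s))
      (fun z => (1 - c v.asIdeal * (q : ℂ) ^ (-s) * z)⁻¹) (by simp) (fun z => by simp)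
    simp only [Finset.univ_unique, Finset.prod_const, Finset.card_singleton, pow_one] at h4
    rw [← h4]
    refine Finset.prod_congr rfl fun g _ => ?_
    unfold efx
    rw [if_pos hn, ← hq, add_zero]
    congr 2
    ring
  · rw [if_neg hn, cpow_two _ hqf, cpow_f]
    obtain ⟨α, β, hα, hβ⟩ := exists_ab (c v.asIdeal) q
    have e1 : luc (c v.asIdeal) (q : ℂ) f = α ^ f + β ^ f := by
      rw [← hα, ← hβ, luc_eq]
    have h4 := h3 2 ![α * (q : ℂ) ^ (-s), β * (q : ℂ) ^ (-s)]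
      (fun z => ((1 - α * (q : ℂ) ^ (-s) * z) * (1 - β * (q : ℂ) ^ (-s) * z))⁻¹) (by simp)
      (fun z => by simp)
    rw [Fin.prod_univ_two] at h4
    simp only [Matrix.cons_val_zero, Matrix.cons_val_one, Matrix.cons_val_fin_one] at h4
    rw [e1]
    have e2 : 1 - (α ^ f + β ^ f) * ((q : ℂ) ^ (-s)) ^ f +
        ((q ^ f : ℕ) : ℂ) * (((q : ℂ) ^ (-s)) ^ f) ^ 2 =
        (1 - (α * (q : ℂ) ^ (-s)) ^ f) * (1 - (β * (q : ℂ) ^ (-s)) ^ f) := by
      rw [mul_pow, mul_pow]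
      push_cast
      rw [← hβ, mul_pow]
      ring
    rw [e2, ← h4]
    refine Finset.prod_congr rfl fun g _ => ?_
    unfold efx
    rw [if_neg hn, ← hq, cpow_two _ (by omega), ← hα]
    congr 1
    rw [← hβ]
    ring

variable {F : Type} [Field F] [NumberField F] [Algebra K F]

/-- the product of the factors above `v` -/
lemma above_prod (hcf : Mc χ) (n : 𝓞 K) (c : Ideal (𝓞 K) → ℂ)
    (hnorm : ∀ (v : HeightOneSpectrum (𝓞 K)) (u : HeightOneSpectrum (𝓞 F)),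
      u.asIdeal.comap (algebraMap (𝓞 K) (𝓞 F)) = v.asIdeal →
        Ideal.absNorm u.asIdeal = Ideal.absNorm v.asIdeal ^ ord χ (gen v))
    [Fintype 𝒢] (v : HeightOneSpectrum (𝓞 K)) (s : ℂ)
    (h1 : Nat.card {u : HeightOneSpectrum (𝓞 F) //
      u.asIdeal.comap (algebraMap (𝓞 K) (𝓞 F)) = v.asIdeal} * ord χ (gen v) =
        Nat.card {g // χ g (gen v) ≠ 0}) :
    ∏ᶠ u : {u : HeightOneSpectrum (𝓞 F) //
      u.asIdeal.comap (algebraMap (𝓞 K) (𝓞 F)) = v.asIdeal},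
        facF n c v (Ideal.absNorm u.1.asIdeal) s = ∏ g, efx n c (χ g) s v := by
  classical
  rw [hcf.local v n c s h1]
  set m := Nat.card {u : HeightOneSpectrum (𝓞 F) //
      u.asIdeal.comap (algebraMap (𝓞 K) (𝓞 F)) = v.asIdeal} with hm
  have hpos : 0 < Nat.card {g // χ g (gen v) ≠ 0} := by
    have : Nonempty {g // χ g (gen v) ≠ 0} := ⟨⟨1, by rw [hcf.triv]; exact one_ne_zero⟩⟩
    exact Nat.card_pos
  have hm0 : m ≠ 0 := by
    intro h0
    rw [h0, zero_mul] at h1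
    omega
  have hfin : Finite {u : HeightOneSpectrum (𝓞 F) //
      u.asIdeal.comap (algebraMap (𝓞 K) (𝓞 F)) = v.asIdeal} := Nat.finite_of_card_ne_zero hm0
  have : Fintype {u : HeightOneSpectrum (𝓞 F) //
      u.asIdeal.comap (algebraMap (𝓞 K) (𝓞 F)) = v.asIdeal} := Fintype.ofFinite _
  rw [finprod_eq_prod_of_fintype, Finset.prod_congr rfl fun u _ => by rw [hnorm v u.1 u.2],
    Finset.prod_const, Finset.card_univ, ← Nat.card_eq_fintype_card]

end mc

section cls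

variable {K F : Type} [Field K] [NumberField K] [hP : IsPrincipalIdealRing (𝓞 K)]
  [Field F] [NumberField F] [Algebra K F] [IsGalois K F]

lemma mem_iff {ψ : (F ≃ₐ[K] F) →* ℂˣ} {𝔣 : Ideal (𝓞 K)} {χ : 𝓞 K → ℂ}
    (h : RC ψ 𝔣 χ) {v : HeightOneSpectrum (𝓞 K)} {u : HeightOneSpectrum (𝓞 F)}
    (hu : u.asIdeal.comap (algebraMap (𝓞 K) (𝓞 F)) = v.asIdeal) :
    𝔣 ≤ v.asIdeal ↔ ∃ t ∈ u.asIdeal.inertia (F ≃ₐ[K] F), ψ t ≠ 1 := by
  constructor
  · intro hv
    obtain ⟨t, h1, h2⟩ := h.ram v hv u hu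
    exact ⟨t, h1, h2⟩
  · rintro ⟨s, hs, h1⟩
    by_contra hv
    obtain ⟨t, ht⟩ := exists_frob hu
    have h2 := h.frob v hv u hu t ht
    have h3 := h.frob v hv u hu (t * s) fun x => by
      have e : (t * s) • x - x ^ Ideal.absNorm v.asIdeal =
          (t • (s • x) - (s • x) ^ Ideal.absNorm v.asIdeal) +
            ((s • x) ^ Ideal.absNorm v.asIdeal - x ^ Ideal.absNorm v.asIdeal) := by
        rw [mul_smul]; ring
      rw [e]
      exact u.asIdeal.add_mem (ht _) (u.asIdeal.mem_of_dvd (sub_dvd_pow_sub_pow _ _ _) (hs x))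
    apply h1
    rw [← h2, map_mul, Units.val_mul] at h3
    have h4 : ψ s = 1 := by
      apply Units.ext
      have h5 : (ψ t : ℂ) ≠ 0 := (ψ t).ne_zero
      exact mul_left_cancel₀ h5 (by rw [h3]; simp)
    exact h4

lemma zero_iff {ψ : (F ≃ₐ[K] F) →* ℂˣ} {𝔣 : Ideal (𝓞 K)} {χ : 𝓞 K → ℂ}
    (h : RC ψ 𝔣 χ) (v : HeightOneSpectrum (𝓞 K)) : χ (gen v) = 0 ↔ 𝔣 ≤ v.asIdeal := by
  constructor
  · intro h1
    by_contra hv
    obtain ⟨u, hu⟩ := exists_above (F := F) v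
    obtain ⟨t, ht⟩ := exists_frob hu
    have h2 := h.frob v hv u hu t ht
    rw [h1] at h2
    exact (ψ t).ne_zero h2
  · intro hv
    exact (h.ch.zero _).2 ⟨v, hv, gen_mem v⟩

lemma top_of_none {𝔣 : Ideal (𝓞 K)} (h0 : 𝔣 ≠ ⊥)
    (h : ∀ v : HeightOneSpectrum (𝓞 K), ¬ 𝔣 ≤ v.asIdeal) : 𝔣 = ⊤ := by
  by_contra hne
  obtain ⟨M, hM, hle⟩ := Ideal.exists_le_maximal 𝔣 hne
  have hM0 : M ≠ ⊥ := by
    rintro rfl
    exact h0 (le_bot_iff.1 hle)
  exact h ⟨M, hM.isPrime, hM0⟩ hle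

theorem s_CLS : S_CLS := by
  intro K F _ _ _ _ _ _ _ _ hab 𝔣 χ h
  have hTmul : ∀ g g' : (F ≃ₐ[K] F) →* ℂˣ, ∀ v : HeightOneSpectrum (𝓞 K), ¬ 𝔣 g ≤ v.asIdeal →
      ¬ 𝔣 g' ≤ v.asIdeal → ¬ 𝔣 (g * g') ≤ v.asIdeal := by
    intro g g' v h1 h2 h3
    obtain ⟨u, hu⟩ := exists_above (F := F) v
    obtain ⟨t, ht, h4⟩ := (mem_iff (h (g * g')) hu).1 h3
    apply h4
    rw [MonoidHom.mul_apply]
    have h5 : g t = 1 := by
      by_contra h6
      exact h1 ((mem_iff (h g) hu).2 ⟨t, ht, h6⟩)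
    have h6 : g' t = 1 := by
      by_contra h7
      exact h2 ((mem_iff (h g') hu).2 ⟨t, ht, h7⟩)
    rw [h5, h6, one_mul]
  have hgen : ∀ g g' : (F ≃ₐ[K] F) →* ℂˣ, ∀ v, χ g (gen v) ≠ 0 → χ g' (gen v) ≠ 0 →
      χ (g * g') (gen v) = χ g (gen v) * χ g' (gen v) := by
    intro g g' v h1 h2
    have h3 : ¬ 𝔣 g ≤ v.asIdeal := fun hv => h1 ((zero_iff (h g) v).2 hv)
    have h4 : ¬ 𝔣 g' ≤ v.asIdeal := fun hv => h2 ((zero_iff (h g') v).2 hv)
    obtain ⟨u, hu⟩ := exists_above (F := F) v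
    obtain ⟨t, ht⟩ := exists_frob hu
    rw [← (h g).frob v h3 u hu t ht, ← (h g').frob v h4 u hu t ht,
      ← (h (g * g')).frob v (hTmul g g' v h3 h4) u hu t ht, MonoidHom.mul_apply, Units.val_mul]
  have hmul : ∀ g g' x, χ g x ≠ 0 → χ g' x ≠ 0 → χ (g * g') x = χ g x * χ g' x := by
    intro g g' x
    induction x using UniqueFactorizationMonoid.induction_on_prime with
    | h₁ =>
      intro h1 h2
      have hT : ∀ g : (F ≃ₐ[K] F) →* ℂˣ, χ g 0 ≠ 0 →
          ∀ v : HeightOneSpectrum (𝓞 K), ¬ 𝔣 g ≤ v.asIdeal := by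
        intro g hg v hv
        exact hg (((h g).ch.zero 0).2 ⟨v, hv, v.asIdeal.zero_mem⟩)
      have hone : ∀ g : (F ≃ₐ[K] F) →* ℂˣ, (∀ v : HeightOneSpectrum (𝓞 K), ¬ 𝔣 g ≤ v.asIdeal) →
          χ g 0 = 1 := by
        intro g hg
        rw [← (h g).ch.one]
        apply (h g).ch.prd
        rw [top_of_none (h g).ch.f0 hg]
        exact Submodule.mem_top
      have h3 := hT g h1
      have h4 := hT g' h2
      have h5 : ∀ v : HeightOneSpectrum (𝓞 K), ¬ 𝔣 (g * g') ≤ v.asIdeal := fun v =>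
        hTmul g g' v (h3 v) (h4 v)
      rw [hone _ h3, hone _ h4, hone _ h5, one_mul]
    | h₂ x hx =>
      intro _ _
      rw [(h g).ch.unit x hx, (h g').ch.unit x hx, (h (g * g')).ch.unit x hx, one_mul]
    | h₃ a p ha hp ih =>
      intro h1 h2
      rw [(h g).ch.mul] at h1
      rw [(h g').ch.mul] at h2
      have h1' := left_ne_zero_of_mul h1
      have h2' := left_ne_zero_of_mul h2
      -- the place of `p`
      obtain ⟨v, hv⟩ : ∃ v : HeightOneSpectrum (𝓞 K), v.asIdeal = Ideal.span {p} :=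
        ⟨⟨Ideal.span {p}, (Ideal.span_singleton_prime hp.ne_zero).2 hp, by
          rw [Ne, Ideal.span_singleton_eq_bot]; exact hp.ne_zero⟩, rfl⟩
      have hass : Associated (gen v) p := by
        rw [← Ideal.span_singleton_eq_span_singleton, gen_span, hv]
      obtain ⟨e, he⟩ := hass
      have hχ : ∀ g : (F ≃ₐ[K] F) →* ℂˣ, χ g p = χ g (gen v) := by
        intro g
        rw [← he, (h g).ch.mul, (h g).ch.unit _ e.isUnit, mul_one]
      rw [(h g).ch.mul, (h g').ch.mul, (h (g * g')).ch.mul, ih (right_ne_zero_of_mul h1)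
        (right_ne_zero_of_mul h2), hχ, hχ, hχ, hgen g g' v (by rw [← hχ]; exact h1')
        (by rw [← hχ]; exact h2')]
      ring
  have htriv : ∀ x, χ 1 x = 1 := by
    intro x
    have h1 : χ 1 x ≠ 0 := by
      intro h0
      obtain ⟨v, hv, -⟩ := ((h 1).ch.zero x).1 h0
      obtain ⟨u, hu⟩ := exists_above (F := F) v
      obtain ⟨t, -, ht⟩ := (mem_iff (h 1) hu).1 hv
      exact ht (MonoidHom.one_apply t)
    have h2 := hmul 1 1 x h1 h1
    have e1 : (1 : (F ≃ₐ[K] F) →* ℂˣ) * 1 = 1 := MonoidHom.ext fun t => by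
      rw [MonoidHom.mul_apply, MonoidHom.one_apply, mul_one]
    rw [e1] at h2
    have h3 : χ 1 x * (χ 1 x - 1) = 0 := by linear_combination -h2
    rcases mul_eq_zero.1 h3 with h4 | h4
    · exact absurd h4 h1
    · exact sub_eq_zero.1 h4
  have hcf : Mc χ := ⟨hmul, htriv⟩
  have hord : ∀ (v : HeightOneSpectrum (𝓞 K)) (u : HeightOneSpectrum (𝓞 F)),
      u.asIdeal.comap (algebraMap (𝓞 K) (𝓞 F)) = v.asIdeal →
      ord χ (gen v) = u.asIdeal.inertiaDeg (𝓞 K) := by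
    intro v u hu
    obtain ⟨t, ht⟩ := exists_frob hu
    rw [← card_values' hab (u.asIdeal.inertia (F ≃ₐ[K] F)) t (norm_above hu).2
      (fun m => frob_pow hu ht m)]
    unfold ord
    refine Nat.card_congr (Equiv.setCongr ?_)
    ext z
    constructor
    · rintro ⟨hz, g, rfl⟩
      have h1 : ¬ 𝔣 g ≤ v.asIdeal := fun hv => hz ((zero_iff (h g) v).2 hv)
      refine ⟨g, fun s hs => ?_, (h g).frob v h1 u hu t ht⟩
      by_contra h2
      exact h1 ((mem_iff (h g) hu).2 ⟨s, hs, h2⟩)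
    · rintro ⟨g, hg, rfl⟩
      have h1 : ¬ 𝔣 g ≤ v.asIdeal := by
        intro hv
        obtain ⟨s, hs, h2⟩ := (mem_iff (h g) hu).1 hv
        exact h2 (hg s hs)
      exact ⟨(g t).ne_zero, g, ((h g).frob v h1 u hu t ht).symm⟩
  have hnorm : ∀ (v : HeightOneSpectrum (𝓞 K)) (u : HeightOneSpectrum (𝓞 F)),
      u.asIdeal.comap (algebraMap (𝓞 K) (𝓞 F)) = v.asIdeal →
      Ideal.absNorm u.asIdeal = Ideal.absNorm v.asIdeal ^ ord χ (gen v) := by
    intro v u hu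
    rw [hord v u hu]
    exact (norm_above hu).1
  refine ⟨hmul, hnorm, fun n c v s => above_prod hcf n c hnorm v s ?_⟩
  obtain ⟨u, hu⟩ := exists_above (F := F) v
  rw [hord v u hu]
  have h1 := card_above hu
  have h2 := card_dual' hab (u.asIdeal.inertia (F ≃ₐ[K] F))
  have h3 : Nat.card {g // χ g (gen v) ≠ 0} =
      Nat.card {ψ : (F ≃ₐ[K] F) →* ℂˣ // ∀ t ∈ u.asIdeal.inertia (F ≃ₐ[K] F), ψ t = 1} := by
    refine Nat.card_congr (Equiv.subtypeEquivRight fun g => ?_)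
    rw [Ne, zero_iff (h g) v, mem_iff (h g) hu]
    push Not
    rfl
  have h4 := Subgroup.card_mul_index (u.asIdeal.inertia (F ≃ₐ[K] F))
  rw [h3, h2]
  have h5 : 0 < Nat.card (u.asIdeal.inertia (F ≃ₐ[K] F)) := Nat.card_pos
  apply Nat.eq_of_mul_eq_mul_left h5
  rw [h4, ← h1]
  ring

end cls

end Pool.Agent.L7h15.RL
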